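import Pool.Agent.H495R3.Tri

/-!
# TRIANGLE is coNP-complete

The decision problem TRIANGLE has as input a finite simple graph, given by an adjacency matrix
`M : List (List Bool)` (`matGraph M` is the graph), and asks whether it is a triangle graph.

Reduction from the complement of 3SAT.  The vertices are the pairs `(i, a)`, meaning that the
variable `i` has the value `a`, and the triples `(i, k, b)` such that the value `b` of the variable
`i` does not satisfy the clause `k`, meaning that the clause `k` is falsified and the variable `i`
has the value `b`; adjacency is contradiction.  If the formula is unsatisfiable then every edge is
in a strong clique (the graph is a general partition graph), so the triangle condition holds.  If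
`τ` is a satisfying assignment, then the pairs `(i, τ i)` form a maximal stable set, and for a dummy
variable `d` the edge between `(d, not (τ d))` and `(d, 0, τ d)` violates the triangle condition.
-/

set_option autoImplicit false

namespace Pool.Agent.Results.MP_679d83_lc.TriangleCoNPComplete

open Pool.Agent.NPC Pool.Agent.H622R2 Pool.Agent.H495R3

/-- **TRIANGLE is coNP-complete** under polynomial-time many-one reductions. -/
theorem result : InCoNPP (fun M : List (List Bool) => IsTriangleGraph (matGraph M)) ∧
    CoNPHardP (fun M : List (List Bool) => IsTriangleGraph (matGraph M)) :=
  ⟨inCoNP_triangle, hardI_not_triangle.toCoNPHardP⟩

end Pool.Agent.Results.MP_679d83_lc.TriangleCoNPComplete
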